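import Pool.Agent.helper20.VVO.Spec2
import Pool.Agent.helper43.ISA.PUB

/-!
# MP_069684, project VVO, second part, row DPX (all lengths, deterministic circuits, all `m`, short witnesses)
-/

set_option autoImplicit false

open Filter Topology

namespace Pool.Agent.VVO

open Pool.Agent.PB Pool.Agent.ISO Pool.Agent.ISA

/-- a design for fewer elements is a design for more elements -/
theorem DPX_dsg {M R m m' : ℕ} {A : Set ℕ} {p : ℝ} {K : Fin M → Finset (Fin R)} (hm : m ≤ m') (h : Dsg m A p K) : Dsg m' A p K :=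
  ⟨fun e => ⟨(h.1 e).1, (h.1 e).2.trans hm⟩, h.2⟩

/-- the bound in the second case -/
theorem DPX_est (n N w k l c2 a B G T μN : ℕ) (ha : 1 ≤ a) (hT : T = n + μN) (hn : 2 ≤ n) (hc2 : c2 ≤ n) (hN : N = n ^ a) (hkw : k + k * w ≤ N)
    (hB : B = N ^ c2 + c2) (hG : G = N ^ 2) (hch : k.choose l ≤ μN) :
    B + N + (k + k * w) + k.choose l + n + G + 2 ≤ T ^ (a * c2 + 2 * a + 4) := by
  have hT2 : 2 ≤ T := by omega
  have hnT : n ≤ T := by omega
  have hNT : N ≤ T ^ a := by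
    rw [hN]
    exact Nat.pow_le_pow_left hnT _
  have h0 : T ^ a ≤ T ^ (a * c2 + 2 * a + 1) := Nat.pow_le_pow_right (by omega) (by nlinarith [Nat.zero_le (a * c2)])
  have h1 : N ^ c2 ≤ T ^ (a * c2 + 2 * a + 1) := by
    calc N ^ c2 ≤ (T ^ a) ^ c2 := Nat.pow_le_pow_left hNT _
      _ = T ^ (a * c2) := (pow_mul _ _ _).symm
      _ ≤ T ^ (a * c2 + 2 * a + 1) := Nat.pow_le_pow_right (by omega) (by omega)
  have h2 : N ^ 2 ≤ T ^ (a * c2 + 2 * a + 1) := by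
    calc N ^ 2 ≤ (T ^ a) ^ 2 := Nat.pow_le_pow_left hNT _
      _ = T ^ (a * 2) := (pow_mul _ _ _).symm
      _ ≤ T ^ (a * c2 + 2 * a + 1) := Nat.pow_le_pow_right (by omega) (by omega)
  have h3 : 8 * T ^ (a * c2 + 2 * a + 1) ≤ T ^ (a * c2 + 2 * a + 4) := by
    have : T ^ (a * c2 + 2 * a + 4) = T ^ 3 * T ^ (a * c2 + 2 * a + 1) := by ring
    rw [this]
    exact Nat.mul_le_mul_right _ (by
      calc 8 = 2 ^ 3 := by norm_num
        _ ≤ T ^ 3 := Nat.pow_le_pow_left hT2 _)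
  have h4 : T ≤ T ^ (a * c2 + 2 * a + 1) := by
    calc T = T ^ 1 := (pow_one T).symm
      _ ≤ T ^ (a * c2 + 2 * a + 1) := Nat.pow_le_pow_right (by omega) (by omega)
  have h5 : 2 * T ≤ T ^ (a * c2 + 2 * a + 1) := by
    have : T ^ (a * c2 + 2 * a + 1) = T ^ (a * c2 + 2 * a) * T := by ring
    rw [this]
    refine Nat.mul_le_mul_right _ ?_
    calc 2 = 2 ^ 1 := by norm_num
      _ ≤ T ^ 1 := Nat.pow_le_pow_left hT2 _
      _ ≤ T ^ (a * c2 + 2 * a) := Nat.pow_le_pow_right (by omega) (by omega)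
  subst hB hG
  omega

theorem DPX (hLEN : LEN_stmt) (hUNS : UNS_stmt) (hLVS : ISO.LVS_stmt) (hCOR : ISA.COR_stmt) (hSVS : SVS_stmt) (hOND : OND_stmt) (hDNF : DNF_stmt) : DPX_stmt := by
  intro ε j m μ p hε hε1 hj hm hμ hev1 hev2 hAll c
  obtain ⟨a, n0, ha, hlen⟩ := hLEN ε j hε hε1 hj c
  obtain ⟨c2, hc2⟩ := hUNS m (fun _ => Set.Icc 1 j) p hAll (8 * (c + 5))
  obtain ⟨N0, hN0⟩ := eventually_atTop.1 (hev1.and hev2)
  obtain ⟨S, hS⟩ := PUB_fin hDNF (N0 + c + c2 + 2 + n0)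
  refine ⟨a, S + a * (c2 + c + 7) * 10 + (a * c2 + 2 * a + 4) * 30, fun n w f hw hf => ?_⟩
  by_cases hn : n < N0 + c + c2 + 2 + n0
  · refine ⟨fun x => decide (wit f x = 1), PUB_mono (hS n hn _) ?_, fun x hx => ?_, fun x hx => ?_⟩
    · omega
    · simp [hx]
    · simp [hx]
  · have hn2 : 2 ≤ n := by omega
    have hnN : n ≤ n ^ a := by
      calc n = n ^ 1 := (pow_one n).symm
        _ ≤ n ^ a := Nat.pow_le_pow_right (by omega) ha
    obtain ⟨hlog, hcrit⟩ := hN0 (n ^ a) (by omega)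
    have hM1 : 1 ≤ min (m (n ^ a)) (μ (n ^ a)) := le_min (hm _) (hμ _)
    have hMm : min (m (n ^ a)) (μ (n ^ a)) ≤ m (n ^ a) := min_le_left _ _
    have hMμ : min (m (n ^ a)) (μ (n ^ a)) ≤ μ (n ^ a) := min_le_right _ _
    have hlogM : Real.log ((min (m (n ^ a)) (μ (n ^ a)) : ℕ) : ℝ) ≤ ((n ^ a : ℕ) : ℝ) ^ (1 - ε) := by
      refine le_trans (Real.log_le_log ?_ ?_) hlog
      · exact_mod_cast hM1
      · exact_mod_cast hMμ
    have hTn : 1 ≤ n + μ (n ^ a) := by omega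
    rcases hlen n w (n ^ a) (min (m (n ^ a)) (μ (n ^ a))) (p (n ^ a)) (by omega) hw rfl hM1 hlogM hcrit with
      ⟨M', R, K, hM'1, h, hRw, hD⟩ | ⟨k, l, hl1, hlk, hch, h, hkw, hsum⟩
    · have hM'N : M' ≤ n ^ a := (Nat.le_mul_of_pos_right M' (by omega)).trans h
      have hRN : R ≤ n ^ a := by omega
      obtain ⟨e1, e2⟩ := PUB_est1 n (n ^ a) w M' R c (n ^ c + c) hn2 (by omega) hnN hw rfl hM'N hRN
      have e3 := PUB_est2 (n ^ a) w M' R c c2 (hn2.trans hnN) (by omega) e1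
      have hP : Prun (m (n ^ a)) (Set.Icc 1 j) (p (n ^ a)) ((n ^ a) ^ c2 + c2) (listV f (n ^ a) h K) := by
        apply hc2
        · exact hRw
        · refine PUB_mono (hLVS n w M' R (n ^ a) (n ^ c + c) ((n ^ a) ^ (c + 5)) f h K hf e2) ?_
          rw [← pow_mul, mul_comm (c + 5) 8]
          exact Nat.le_add_right _ _
      obtain ⟨D, hD1, hD2, hD3⟩ := hCOR n w M' R (n ^ a) (m (n ^ a)) ((n ^ a) ^ c2 + c2)
        ((n ^ a) ^ (c2 + c + 7)) (Set.Icc 1 j) (p (n ^ a)) f h K hM'1 (DPX_dsg hMm hD) hP e3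
      refine ⟨D, PUB_mono hD1 ?_, hD2, hD3⟩
      rw [← pow_mul, ← pow_mul, ← mul_assoc]
      calc n ^ (a * (c2 + c + 7) * 10) ≤ (n + μ (n ^ a)) ^ (a * (c2 + c + 7) * 10) := Nat.pow_le_pow_left (by omega) _
        _ ≤ (n + μ (n ^ a)) ^ (S + a * (c2 + c + 7) * 10 + (a * c2 + 2 * a + 4) * 30) :=
            Nat.pow_le_pow_right hTn (by omega)
        _ ≤ _ := Nat.le_add_right _ _
    · have hkN : k ≤ n ^ a := by omega
      obtain ⟨e1, e2⟩ := PUB_est1 n (n ^ a) w k k c (n ^ c + c) hn2 (by omega) hnN hw rfl hkN hkN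
      have hP : Prun (m (n ^ a)) (Set.Icc 1 j) (p (n ^ a)) ((n ^ a) ^ c2 + c2) (subV f (n ^ a) l h) := by
        apply hc2
        · exact hkw
        · refine PUB_mono (hSVS n w k (n ^ a) l (n ^ c + c) ((n ^ a) ^ (c + 5)) f h hf ?_) ?_
          · omega
          · rw [← pow_mul, mul_comm (c + 5) 8]
            exact Nat.le_add_right _ _
      have e3 := DPX_est n (n ^ a) w k l c2 a ((n ^ a) ^ c2 + c2) ((n ^ a) ^ 2) (n + μ (n ^ a)) (μ (n ^ a)) ha rfl hn2 (by omega) rfl hkw rfl rfl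
        (hch.trans hMμ)
      have hG : 4 ≤ (n ^ a) ^ 2 := by
        calc 4 = 2 ^ 2 := by norm_num
          _ ≤ (n ^ a) ^ 2 := Nat.pow_le_pow_left (hn2.trans hnN) 2
      obtain ⟨D, hD1, hD2, hD3⟩ := hOND n w (n ^ a) k l j (m (n ^ a)) ((n ^ a) ^ c2 + c2) ((n ^ a) ^ 2)
        ((n + μ (n ^ a)) ^ (a * c2 + 2 * a + 4)) (p (n ^ a)) f h hl1 hlk (hch.trans hMm) hG hP hsum e3
      refine ⟨D, PUB_mono hD1 ?_, hD2, hD3⟩
      rw [← pow_mul]
      calc (n + μ (n ^ a)) ^ ((a * c2 + 2 * a + 4) * 30)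
          ≤ (n + μ (n ^ a)) ^ (S + a * (c2 + c + 7) * 10 + (a * c2 + 2 * a + 4) * 30) :=
            Nat.pow_le_pow_right hTn (by omega)
        _ ≤ _ := Nat.le_add_right _ _

end Pool.Agent.VVO
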