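import Pool.Agent.helper20.VVO.Spec

/-!
# Row POI: the integral of the Poisson probabilities
-/

set_option autoImplicit false

open Filter Topology

namespace Pool.Agent.VVO

open Pool.Agent.PB Pool.Agent.ISO Pool.Agent.ISA

/-- `pois j x / x` without the division -/
noncomputable def POI_g (j : ℕ) (x : ℝ) : ℝ := ∑ k ∈ Finset.range j, Real.exp (-x) * x ^ k / ((k + 1).factorial : ℝ)

theorem POI_eq (j : ℕ) (x : ℝ) (hx : x ≠ 0) : pois j x / x = POI_g j x := by
  unfold pois POI_g
  rw [Finset.sum_div]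
  have h : Finset.Icc 1 j = (Finset.range j).image (fun k => k + 1) := by
    ext i
    simp only [Finset.mem_Icc, Finset.mem_image, Finset.mem_range]
    constructor
    · rintro ⟨h1, h2⟩
      exact ⟨i - 1, by omega, by omega⟩
    · rintro ⟨k, h1, h2⟩
      omega
  rw [h, Finset.sum_image (fun a _ b _ hab => by simpa using hab)]
  refine Finset.sum_congr rfl fun k _ => ?_
  rw [pow_succ]
  field_simp

theorem POI_cont (j : ℕ) : Continuous (POI_g j) := by
  unfold POI_g
  fun_prop

theorem POI_rpow (k : ℕ) : Set.EqOn (fun x : ℝ => Real.exp (-x) * x ^ (((k : ℝ) + 1) - 1)) (fun x : ℝ => Real.exp (-x) * x ^ k)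
    (Set.Ioi 0) := by
  intro x _
  simp only
  rw [add_sub_cancel_right, Real.rpow_natCast]

theorem POI_int1 (k : ℕ) : MeasureTheory.IntegrableOn (fun x : ℝ => Real.exp (-x) * x ^ k) (Set.Ioi 0) := by
  have h := Real.GammaIntegral_convergent (s := (k : ℝ) + 1) (by positivity)
  exact h.congr_fun (POI_rpow k) measurableSet_Ioi

theorem POI_val1 (k : ℕ) : ∫ x in Set.Ioi (0 : ℝ), Real.exp (-x) * x ^ k = (k.factorial : ℝ) := by
  rw [← Real.Gamma_nat_eq_factorial, Real.Gamma_eq_integral (by positivity)]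
  exact (MeasureTheory.setIntegral_congr_fun measurableSet_Ioi (POI_rpow k)).symm

theorem POI_int (j : ℕ) : MeasureTheory.IntegrableOn (POI_g j) (Set.Ioi 0) := by
  unfold POI_g
  refine MeasureTheory.integrable_finsetSum _ fun k _ => ?_
  exact (POI_int1 k).div_const _

theorem POI_val (j : ℕ) : ∫ x in Set.Ioi (0 : ℝ), POI_g j x = (harmonic j : ℝ) := by
  unfold POI_g
  rw [MeasureTheory.integral_finsetSum _ (fun k _ => (POI_int1 k).div_const _)]
  unfold harmonic
  push_cast
  refine Finset.sum_congr rfl fun k _ => ?_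
  rw [MeasureTheory.integral_div, POI_val1, Nat.factorial_succ]
  have h1 : (k.factorial : ℝ) ≠ 0 := by exact_mod_cast k.factorial_ne_zero
  have h2 : ((k : ℝ) + 1) ≠ 0 := by positivity
  push_cast
  field_simp

theorem POI : POI_stmt := by
  intro j δ hδ
  have h1 : Tendsto (fun x : ℝ => ∫ t in (0 : ℝ)..x, POI_g j t) atTop (𝓝 (harmonic j : ℝ)) := by
    rw [← POI_val]
    exact MeasureTheory.intervalIntegral_tendsto_integral_Ioi 0 (POI_int j) tendsto_id
  have h2 : ∀ᶠ x : ℝ in atTop, (harmonic j : ℝ) - δ / 2 < ∫ t in (0 : ℝ)..x, POI_g j t :=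
    h1.eventually (lt_mem_nhds (by linarith))
  obtain ⟨hi, hhi1, hhi⟩ := (h2.and (eventually_gt_atTop (1 : ℝ))).exists
  have hii : ∀ a b : ℝ, IntervalIntegrable (POI_g j) MeasureTheory.volume a b := fun a b => (POI_cont j).intervalIntegrable a b
  have h3 : Continuous (fun x : ℝ => ∫ t in (0 : ℝ)..x, POI_g j t) := intervalIntegral.continuous_primitive hii 0
  have h4 : ∀ᶠ x : ℝ in 𝓝[>] 0, ∫ t in (0 : ℝ)..x, POI_g j t < δ / 2 := by
    have h5 := h3.tendsto 0
    rw [intervalIntegral.integral_same] at h5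
    exact (h5.eventually (gt_mem_nhds (by linarith))).filter_mono nhdsWithin_le_nhds
  have h6 : ∀ᶠ x : ℝ in 𝓝[>] 0, x ∈ Set.Ioo (0 : ℝ) 1 := Ioo_mem_nhdsGT one_pos
  obtain ⟨lo, hlo1, hlo⟩ := (h4.and h6).exists
  refine ⟨lo, hi, hlo.1, hlo.2, hhi, ?_⟩
  have h7 : ∫ x in lo..hi, pois j x / x = ∫ x in lo..hi, POI_g j x := by
    apply intervalIntegral.integral_congr
    intro x hx
    rw [Set.uIcc_of_le (by linarith [hlo.2])] at hx
    exact POI_eq j x (by linarith [hlo.1, hx.1] : (0 : ℝ) < x).ne'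
  have h8 := intervalIntegral.integral_add_adjacent_intervals (hii 0 lo) (hii lo hi)
  rw [h7]
  linarith

end Pool.Agent.VVO
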